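import Mathlib
import Pool.Graph.R_seed8.Helper60.Mah.End
import Pool.Graph.R_seed8.Helper60.Unc.AllMajor

set_option autoImplicit false

namespace Pool.Agent.Results.MP_ac58b9_an.SigmaFiniteAllScalars

open MeasureTheory
open scoped ENNReal NNReal

/-- `X` has an unconditional (long) Schauder basis over `𝕜` -/
def HasUncBasis (𝕜 X : Type) [RCLike 𝕜] [NormedAddCommGroup X] [NormedSpace 𝕜 X] : Prop :=
  ∃ (I : Type) (e : I → X), ∀ x : X, ∃! a : I → 𝕜, HasSum (fun i => a i • e i) x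

/-- the density of `X` is at most `ℵ₁` -/
def DensityLeAlephOne (X : Type) [TopologicalSpace X] : Prop :=
  ∃ D : Set X, Dense D ∧ Cardinal.mk ↥D ≤ Cardinal.aleph 1

lemma HasUncBasis.congr {𝕜 X Y : Type} [RCLike 𝕜] [NormedAddCommGroup X] [NormedSpace 𝕜 X]
    [NormedAddCommGroup Y] [NormedSpace 𝕜 Y] (T : X ≃L[𝕜] Y) (h : HasUncBasis 𝕜 X) :
    HasUncBasis 𝕜 Y := by
  obtain ⟨I, e, he⟩ := h
  refine ⟨I, fun i => T (e i), fun y => ?_⟩
  obtain ⟨a, ha, hu⟩ := he (T.symm y)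
  refine ⟨a, ?_, fun b hb => hu b ?_⟩
  · have := ha.mapL (T : X →L[𝕜] Y)
    simpa using this
  · have := hb.mapL (T.symm : Y →L[𝕜] X)
    simpa using this

lemma DensityLeAlephOne.image {X Y : Type} [TopologicalSpace X] [TopologicalSpace Y] (f : X → Y)
    (hf : Continuous f) (hs : Function.Surjective f) (h : DensityLeAlephOne X) :
    DensityLeAlephOne Y := by
  obtain ⟨D, hD, hc⟩ := h
  exact ⟨f '' D, hs.denseRange.dense_image hf hD, Cardinal.mk_image_le.trans hc⟩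

lemma hilbert (E : Type) [NormedAddCommGroup E] [InnerProductSpace ℝ E] [CompleteSpace E] :
    HasUncBasis ℝ E := by
  classical
  obtain ⟨w, b, -⟩ := exists_hilbertBasis ℝ E
  refine ⟨w, b, fun x => ⟨fun i => b.repr x i, b.hasSum_repr x, fun a ha => ?_⟩⟩
  funext i
  have h1 := ha.mapL (innerSL ℝ (b i))
  have h2 : (fun j => innerSL ℝ (b i) (a j • b j)) = fun j => if j = i then a i else 0 := by
    funext j
    simp only [innerSL_apply_apply, inner_smul_right]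
    rw [orthonormal_iff_ite.1 b.orthonormal]
    by_cases h : j = i
    · subst h; simp
    · simp [h, Ne.symm h]
  rw [h2] at h1
  have h3 := h1.unique (hasSum_ite_eq i (a i))
  rw [innerSL_apply_apply] at h3
  rw [b.repr_apply_apply, h3]

section sigma
variable {Ω : Type} [MeasurableSpace Ω] (μ : Measure Ω)

lemma wnorm {p : ℝ≥0∞} (h0 : p ≠ 0) (hpt : p ≠ ⊤) {g : Ω → ℝ≥0} (hg : Measurable g)
    (f : Ω → ℝ) : eLpNorm (fun x => ((g x : ℝ) ^ (1 / p.toReal)) * f x) p μ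
      = eLpNorm f p (μ.withDensity fun x => (g x : ℝ≥0∞)) := by
  have hr : 0 < p.toReal := ENNReal.toReal_pos h0 hpt
  rw [eLpNorm_eq_lintegral_rpow_enorm_toReal h0 hpt, eLpNorm_eq_lintegral_rpow_enorm_toReal h0 hpt]
  congr 1
  rw [lintegral_withDensity_eq_lintegral_mul_non_measurable μ hg.coe_nnreal_ennreal
    (ae_of_all _ fun x => ENNReal.coe_lt_top)]
  congr 1
  funext x
  rw [Pi.mul_apply, enorm_mul, ENNReal.mul_rpow_of_nonneg _ _ hr.le]
  congr 1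
  have : ‖((g x : ℝ) ^ (1 / p.toReal))‖ₑ = ENNReal.ofReal ((g x : ℝ) ^ (1 / p.toReal)) :=
    Real.enorm_eq_ofReal (by positivity)
  rw [this, ENNReal.ofReal_rpow_of_nonneg (by positivity) hr.le, ← Real.rpow_mul (by positivity)]
  rw [one_div, inv_mul_cancel₀ hr.ne', Real.rpow_one, ENNReal.ofReal_coe_nnreal]

lemma sigma_iso (p : ℝ≥0∞) [hp : Fact (1 ≤ p)] (hpt : p ≠ ⊤) [SigmaFinite μ] :
    ∃ ν : Measure Ω, IsFiniteMeasure ν ∧ Nonempty (Lp ℝ p ν ≃ₗᵢ[ℝ] Lp ℝ p μ) := by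
  have h0 : p ≠ 0 := (lt_of_lt_of_le zero_lt_one hp.out).ne'
  obtain ⟨g, hg0, hg, hgi⟩ := exists_pos_lintegral_lt_of_sigmaFinite μ (ε := 1) one_ne_zero
  obtain ⟨ν, hν⟩ : ∃ ν, ν = μ.withDensity fun x => (g x : ℝ≥0∞) := ⟨_, rfl⟩
  have hfin : IsFiniteMeasure ν := by
    rw [hν]; exact isFiniteMeasure_withDensity (hgi.trans ENNReal.one_lt_top).ne
  have ac1 : μ ≪ ν := by
    rw [hν]
    exact withDensity_absolutelyContinuous' hg.coe_nnreal_ennreal.aemeasurable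
      (ae_of_all _ fun x => by simpa using (hg0 x).ne')
  have ac2 : ν ≪ μ := by rw [hν]; exact withDensity_absolutelyContinuous _ _
  obtain ⟨w, hw⟩ : ∃ w : Ω → ℝ, w = fun x => (g x : ℝ) ^ (1 / p.toReal) := ⟨_, rfl⟩
  have hwm : Measurable w := by rw [hw]; exact hg.coe_nnreal_real.pow_const _
  have hw0 : ∀ x, w x ≠ 0 := by
    intro x; rw [hw]
    exact (Real.rpow_pos_of_pos (by exact_mod_cast hg0 x) _).ne'
  have hn : ∀ f : Ω → ℝ, eLpNorm (fun x => w x * f x) p μ = eLpNorm f p ν := by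
    intro f; rw [hw, hν]; exact wnorm μ h0 hpt hg f
  have hm : ∀ f : Ω → ℝ, MemLp f p ν → MemLp (fun x => w x * f x) p μ := by
    intro f hf
    exact ⟨hwm.aestronglyMeasurable.mul (hf.1.mono_ac ac1), by rw [hn]; exact hf.2⟩
  refine ⟨ν, hfin, ⟨?_⟩⟩
  let T : Lp ℝ p ν →ₗᵢ[ℝ] Lp ℝ p μ :=
    { toFun := fun f => (hm f (Lp.memLp f)).toLp _
      map_add' := by
        intro f f'
        apply Lp.ext
        filter_upwards [(hm _ (Lp.memLp (f + f'))).coeFn_toLp,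
          Lp.coeFn_add ((hm f (Lp.memLp f)).toLp _) ((hm f' (Lp.memLp f')).toLp _),
          (hm f (Lp.memLp f)).coeFn_toLp, (hm f' (Lp.memLp f')).coeFn_toLp,
          ac1 (Lp.coeFn_add f f')] with x h1 h2 h3 h4 h5
        have h5' : (f + f' : Lp ℝ p ν) x = f x + f' x := h5
        rw [h1, h2, Pi.add_apply, h3, h4, h5']
        ring
      map_smul' := by
        intro c f
        apply Lp.ext
        filter_upwards [(hm _ (Lp.memLp (c • f))).coeFn_toLp,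
          Lp.coeFn_smul c ((hm f (Lp.memLp f)).toLp _),
          (hm f (Lp.memLp f)).coeFn_toLp, ac1 (Lp.coeFn_smul c f)] with x h1 h2 h3 h5
        have h5' : (c • f : Lp ℝ p ν) x = c * f x := h5
        simp only [RingHom.id_apply]
        rw [h1, h2, Pi.smul_apply, h3, h5', smul_eq_mul]
        ring
      norm_map' := by
        intro f
        show ‖(hm f (Lp.memLp f)).toLp _‖ = ‖f‖
        rw [Lp.norm_toLp, Lp.norm_def, hn] }
  refine LinearIsometryEquiv.ofSurjective T ?_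
  intro h
  have hm' : MemLp (fun x => (w x)⁻¹ * h x) p ν := by
    refine ⟨hwm.inv.aestronglyMeasurable.mul ((Lp.memLp h).1.mono_ac ac2), ?_⟩
    rw [← hn]
    have : (fun x => w x * ((w x)⁻¹ * h x)) = h := by
      funext x; rw [← mul_assoc, mul_inv_cancel₀ (hw0 x), one_mul]
    rw [this]; exact (Lp.memLp h).2
  refine ⟨hm'.toLp _, ?_⟩
  apply Lp.ext
  filter_upwards [(hm _ (Lp.memLp (hm'.toLp _))).coeFn_toLp, ac1 hm'.coeFn_toLp] with x h1 h2
  have h2' : (hm'.toLp _ : Lp ℝ p ν) x = (w x)⁻¹ * h x := h2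
  show ((hm _ (Lp.memLp (hm'.toLp _))).toLp _ : Lp ℝ p μ) x = h x
  rw [h1, h2', ← mul_assoc, mul_inv_cancel₀ (hw0 x), one_mul]

end sigma

section complex
variable {Ω : Type} [MeasurableSpace Ω] {μ : Measure Ω} {p : ℝ≥0∞} [Fact (1 ≤ p)]

/-- real functions as complex functions -/
noncomputable def J : Lp ℝ p μ →L[ℝ] Lp ℂ p μ := Complex.ofRealCLM.compLpL p μ
/-- the real part -/
noncomputable def Re : Lp ℂ p μ →L[ℝ] Lp ℝ p μ := Complex.reCLM.compLpL p μ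
/-- the imaginary part -/
noncomputable def Im : Lp ℂ p μ →L[ℝ] Lp ℝ p μ := Complex.imCLM.compLpL p μ

lemma J_coe (f : Lp ℝ p μ) : ∀ᵐ x ∂μ, J f x = (f x : ℂ) := Complex.ofRealCLM.coeFn_compLpL f
lemma Re_coe (f : Lp ℂ p μ) : ∀ᵐ x ∂μ, Re f x = (f x).re := Complex.reCLM.coeFn_compLpL f
lemma Im_coe (f : Lp ℂ p μ) : ∀ᵐ x ∂μ, Im f x = (f x).im := Complex.imCLM.coeFn_compLpL f

lemma dec (f : Lp ℂ p μ) : f = J (Re f) + Complex.I • J (Im f) := by
  apply Lp.ext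
  filter_upwards [Lp.coeFn_add (J (Re f)) (Complex.I • J (Im f)), J_coe (Re f), J_coe (Im f),
    Re_coe f, Im_coe f, Lp.coeFn_smul Complex.I (J (Im f))] with x h1 h2 h3 h4 h5 h6
  rw [h1, Pi.add_apply, h6, Pi.smul_apply, h2, h3, h4, h5, smul_eq_mul, mul_comm Complex.I,
    Complex.re_add_im]

lemma Re_smul (c : ℂ) (f : Lp ℝ p μ) : Re (c • J f) = c.re • f := by
  apply Lp.ext
  filter_upwards [Re_coe (c • J f), Lp.coeFn_smul c (J f), J_coe f, Lp.coeFn_smul c.re f]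
    with x h1 h2 h3 h4
  rw [h1, h2, Pi.smul_apply, h3, h4, Pi.smul_apply, smul_eq_mul, smul_eq_mul]
  simp

lemma Im_smul (c : ℂ) (f : Lp ℝ p μ) : Im (c • J f) = c.im • f := by
  apply Lp.ext
  filter_upwards [Im_coe (c • J f), Lp.coeFn_smul c (J f), J_coe f, Lp.coeFn_smul c.im f]
    with x h1 h2 h3 h4
  rw [h1, h2, Pi.smul_apply, h3, h4, Pi.smul_apply, smul_eq_mul, smul_eq_mul]
  simp

lemma J_smul (c : ℝ) (f : Lp ℝ p μ) : J (c • f) = (c : ℂ) • J f := by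
  apply Lp.ext
  filter_upwards [J_coe (c • f), Lp.coeFn_smul (c : ℂ) (J f), J_coe f, Lp.coeFn_smul c f]
    with x h1 h2 h3 h4
  rw [h1, h2, Pi.smul_apply, h3, h4, Pi.smul_apply, smul_eq_mul, smul_eq_mul]
  push_cast
  rfl

lemma complexify (h : HasUncBasis ℝ (Lp ℝ p μ)) : HasUncBasis ℂ (Lp ℂ p μ) := by
  obtain ⟨I, e, he⟩ := h
  refine ⟨I, fun i => J (e i), fun z => ?_⟩
  obtain ⟨a, ha, hua⟩ := he (Re z)
  obtain ⟨b, hb, hub⟩ := he (Im z)
  refine ⟨fun i => (a i : ℂ) + (b i : ℂ) * Complex.I, ?_, fun c hc => ?_⟩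
  · have h1 := ha.mapL (J : Lp ℝ p μ →L[ℝ] Lp ℂ p μ)
    have h2 := (hb.mapL (J : Lp ℝ p μ →L[ℝ] Lp ℂ p μ)).const_smul Complex.I
    have h3 := h1.add h2
    rw [← dec z] at h3
    have e1 : (fun i => ((a i : ℂ) + (b i : ℂ) * Complex.I) • J (e i))
        = fun i => (J : Lp ℝ p μ →L[ℝ] Lp ℂ p μ) (a i • e i)
          + Complex.I • (J : Lp ℝ p μ →L[ℝ] Lp ℂ p μ) (b i • e i) := by
      funext i
      rw [J_smul, J_smul, add_smul, smul_smul, mul_comm Complex.I]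
    show HasSum (fun i => ((a i : ℂ) + (b i : ℂ) * Complex.I) • J (e i)) z
    rw [e1]
    exact h3
  · have h1 := hc.mapL ((Re : Lp ℂ p μ →L[ℝ] Lp ℝ p μ))
    have h2 := hc.mapL ((Im : Lp ℂ p μ →L[ℝ] Lp ℝ p μ))
    simp only [Re_smul] at h1
    simp only [Im_smul] at h2
    have e1 := hua _ h1
    have e2 := hub _ h2
    funext i
    have e1' := congrFun e1 i
    have e2' := congrFun e2 i
    rw [← e1', ← e2', Complex.re_add_im]

end complex

/-- the real case, finite measure -/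
lemma real_finite (p : ℝ≥0∞) [Fact (1 ≤ p)] (hp1 : 1 < p) (hpt : p ≠ ⊤) (Ω : Type)
    [MeasurableSpace Ω] (μ : Measure Ω) (hμ : IsFiniteMeasure μ)
    (hD : DensityLeAlephOne (Lp ℝ p μ)) : HasUncBasis ℝ (Lp ℝ p μ) := by
  by_cases hp2 : p = 2
  · subst hp2
    exact hilbert (Lp ℝ 2 μ)
  · exact H60Mah.all_of_major H60Unc.major_all p hp1 hp2 hpt Ω μ hμ hD

lemma real_sigma (p : ℝ≥0∞) [Fact (1 ≤ p)] (hp1 : 1 < p) (hpt : p ≠ ⊤) (Ω : Type)
    [MeasurableSpace Ω] (μ : Measure Ω) [SigmaFinite μ]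
    (hD : DensityLeAlephOne (Lp ℝ p μ)) : HasUncBasis ℝ (Lp ℝ p μ) := by
  obtain ⟨ν, hν, ⟨T⟩⟩ := sigma_iso μ p hpt
  refine HasUncBasis.congr T.toContinuousLinearEquiv (real_finite p hp1 hpt Ω ν hν ?_)
  exact hD.image T.symm T.symm.continuous T.symm.surjective

/-- `L_p(μ)`, real or complex, has an unconditional basis whenever `1 < p < ∞`, `μ` is σ-finite
and the density is at most `ℵ₁`. -/
theorem result (p : ℝ≥0∞) [Fact (1 ≤ p)] (hp1 : 1 < p) (hpt : p ≠ ⊤) (Ω : Type)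
    [MeasurableSpace Ω] (μ : Measure Ω) [SigmaFinite μ] :
    (DensityLeAlephOne (Lp ℝ p μ) → HasUncBasis ℝ (Lp ℝ p μ)) ∧
    (DensityLeAlephOne (Lp ℂ p μ) → HasUncBasis ℂ (Lp ℂ p μ)) := by
  refine ⟨real_sigma p hp1 hpt Ω μ, fun h => complexify (real_sigma p hp1 hpt Ω μ ?_)⟩
  refine h.image (Re : Lp ℂ p μ →L[ℝ] Lp ℝ p μ) (Re : Lp ℂ p μ →L[ℝ] Lp ℝ p μ).continuous ?_
  intro f
  refine ⟨J f, ?_⟩
  have := Re_smul (1 : ℂ) f
  simpa using this

end Pool.Agent.Results.MP_ac58b9_an.SigmaFiniteAllScalars
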